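import Mathlib

namespace Pool.Agent.Results.MP_eb99da_pr.NotAR

open MeasureTheory Set Filter Topology
open scoped ENNReal

lemma tel {c : ℝ} (hc : 0 < c) (n : ℕ) :
    ∑ j ∈ Finset.range n, c / ((j + c) * (j + c + 1)) = 1 - c / (n + c) := by
  induction n with
  | zero => simp [hc.ne']
  | succ n ih =>
    rw [Finset.sum_range_succ, ih]
    push_cast
    field_simp
    ring

lemma tel_sum {c : ℝ} (hc : 0 < c) : ∑' j : ℕ, ENNReal.ofReal (c / ((j + c) * (j + c + 1))) = 1 := by
  have h0 : ∀ j : ℕ, 0 ≤ c / ((j + c) * (j + c + 1)) := fun j => by positivity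
  have h : HasSum (fun j : ℕ => c / ((j + c) * (j + c + 1))) 1 := by
    rw [hasSum_iff_tendsto_nat_of_nonneg h0]
    simp only [tel hc]
    simpa using (tendsto_const_nhds (x := (1 : ℝ))).sub ((tendsto_const_nhds (x := c)).div_atTop
      (tendsto_atTop_add_const_right _ c tendsto_natCast_atTop_atTop))
  rw [← ENNReal.ofReal_tsum_of_nonneg h0 h.summable, h.tsum_eq, ENNReal.ofReal_one]

noncomputable def nu : PMF ℕ :=
  ⟨fun j => ENNReal.ofReal (3 / ((j + 3) * (j + 3 + 1))),
    tel_sum (c := 3) (by norm_num) ▸ ENNReal.summable.hasSum⟩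

def e : ℕ ≃ ℤ := Equiv.intEquivNat.symm

noncomputable def gen (i : ℕ) (b : Bool) : ℤ →₀ ℤ := Finsupp.single (e i) (if b then 1 else -1)

noncomputable def mu : PMF (ℤ →₀ ℤ) := nu.bind fun i => (PMF.uniformOfFintype Bool).map (gen i)

def idx (g : ℤ →₀ ℤ) : ℕ := g.support.sup e.symm

lemma idx_gen (i b) : idx (gen i b) = i := by
  rw [idx, gen, Finsupp.support_single _ (by split_ifs <;> simp)]
  simp

lemma mu_idx : mu.map idx = nu := by
  rw [mu, PMF.map_bind]
  simp only [PMF.map_comp, show ∀ i, idx ∘ gen i = Function.const _ i from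
    fun i => funext (idx_gen i), PMF.map_const, PMF.bind_pure]

lemma mu_supp (g : ℤ →₀ ℤ) : g ∈ mu.support ↔ ∃ i b, gen i b = g := by
  have : ∀ i, nu i ≠ 0 := fun i => (ENNReal.ofReal_pos.mpr (by positivity)).ne'
  simp [mu, this, -Bool.exists_bool]

lemma mu_symm (g : ℤ →₀ ℤ) : mu (-g) = mu g := by
  classical
  simp only [mu, PMF.bind_apply, PMF.map_apply, tsum_bool, PMF.uniformOfFintype_apply, gen,
    neg_eq_iff_eq_neg, ← Finsupp.single_neg, if_true, Bool.false_eq_true, if_false, neg_neg]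
  simp only [add_comm]

lemma mu_gen : AddSubgroup.closure mu.support = ⊤ := by
  rw [eq_top_iff]
  rintro g -
  induction g using Finsupp.induction_linear with
  | zero => exact zero_mem _
  | add f g hf hg => exact add_mem hf hg
  | single a b =>
    have := zsmul_mem (AddSubgroup.subset_closure ((mu_supp _).mpr ⟨e.symm a, true, rfl⟩)) b
    simpa [gen] using this

lemma det (z : ℕ → ℤ →₀ ℤ) (h1 : ∀ r, z r ∈ mu.support)
    (h2 : ∀ s t, s < t → idx (z s) = idx (z t) → ∃ r < t, idx (z t) < idx (z r)) :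
    (0 : ℤ →₀ ℤ) ∉ AddSubsemigroup.closure {x | ∃ m, 1 ≤ m ∧ x = ∑ r ∈ Finset.range m, z r} := by
  have h3 : ∀ r, 0 < z r (e (idx (z r))) * z r (e (idx (z r))) ∧
      ∀ j, j ≠ idx (z r) → z r (e j) = 0 := fun r => by
    obtain ⟨i, b, h⟩ := (mu_supp _).mp (h1 r)
    rw [← h, idx_gen, gen]
    refine ⟨by cases b <;> simp, fun j hj => Finsupp.single_eq_of_ne (e.injective.ne hj)⟩
  have key : ∀ x ∈ AddSubsemigroup.closure {x | ∃ m, 1 ≤ m ∧ x = ∑ r ∈ Finset.range m, z r},
      ∃ s, (∀ r < s, idx (z r) < idx (z s)) ∧ 0 < x (e (idx (z s))) * z s (e (idx (z s))) ∧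
        ∀ j, idx (z s) < j → x (e j) = 0 := by
    intro x hx
    induction hx using AddSubsemigroup.closure_induction with
    | mem x hx =>
      obtain ⟨m, hm, rfl⟩ := hx
      obtain ⟨s, hs, hM⟩ := (Finset.range m).exists_max_image (fun r => idx (z r)) ⟨0, by simp; omega⟩
      simp only [Finset.mem_range] at hs hM
      have hu : ∀ r < m, r ≠ s → idx (z r) ≠ idx (z s) := fun r hr hrs he => by
        rcases hrs.lt_or_gt with h | h
        · obtain ⟨t, ht, h4⟩ := h2 r s h he
          have := hM t (by omega)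
          omega
        · obtain ⟨t, ht, h4⟩ := h2 s r h he.symm
          have := hM t (by omega)
          omega
      refine ⟨s, fun r hr => (hM r (by omega)).lt_of_ne (hu r (by omega) hr.ne), ?_, fun j hj => ?_⟩
      · rw [Finsupp.finsetSum_apply, Finset.sum_eq_single_of_mem s (by simpa) fun r hr hrs =>
          (h3 r).2 _ (hu r (by simpa using hr) hrs).symm]
        exact (h3 s).1
      · rw [Finsupp.finsetSum_apply]
        exact Finset.sum_eq_zero fun r hr => (h3 r).2 _ (by have := hM r (by simpa using hr); omega)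
    | add x y _ _ hx hy =>
      obtain ⟨s, a1, a2, a3⟩ := hx
      obtain ⟨t, b1, b2, b3⟩ := hy
      rcases lt_trichotomy s t with h | rfl | h
      · have := b1 s h
        exact ⟨t, b1, by simpa [a3 _ this] using b2, fun j hj => by simp [a3 j (by omega), b3 j hj]⟩
      · exact ⟨s, a1, by rw [Finsupp.add_apply, add_mul]; omega, fun j hj => by simp [a3 j hj, b3 j hj]⟩
      · have := a1 t h
        exact ⟨s, a1, by simpa [b3 _ this] using a2, fun j hj => by simp [b3 j (by omega), a3 j hj]⟩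
  intro h
  obtain ⟨s, -, h, -⟩ := key 0 h
  simp at h

def C (i a b : ℕ) : Set (ℕ → ℤ →₀ ℤ) := Set.pi (Finset.range (a + b + 2)) fun r =>
  idx ⁻¹' (if r = a ∨ r = a + b + 1 then {i} else Iic i)

lemma prod_if (x y : ℝ≥0∞) (a b : ℕ) : ∏ r ∈ Finset.range (a + b + 2),
    (if r = a ∨ r = a + b + 1 then x else y) = x * x * y ^ a * y ^ b := by
  rw [Finset.prod_range_succ, show a + b + 1 = a + (b + 1) from rfl, Finset.prod_range_add,
    Finset.prod_range_succ', Finset.prod_congr rfl (g := fun _ => y) fun r hr => if_neg (by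
      have := Finset.mem_range.mp hr; omega), Finset.prod_congr rfl (g := fun _ => y) fun r hr =>
      if_neg (by have := Finset.mem_range.mp hr; omega)]
  simp
  ring

lemma bound : ∑' i, ∑' a, ∑' b, nu.toMeasure {i} * nu.toMeasure {i} * nu.toMeasure (Iic i) ^ a *
    nu.toMeasure (Iic i) ^ b ≤ 2⁻¹ := by
  simp only [ENNReal.tsum_mul_left, ENNReal.tsum_mul_right, ENNReal.tsum_geometric]
  refine le_trans ?_ ((congrArg (2⁻¹ * ·) (tel_sum (c := 2) two_pos)).trans (mul_one _)).le
  rw [← ENNReal.tsum_mul_left]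
  refine ENNReal.tsum_le_tsum fun i => ?_
  have h1 : 1 - nu.toMeasure (Iic i) = ENNReal.ofReal (3 / (i + 4)) := by
    rw [show Iic i = (Finset.range (i + 1) : Set ℕ) by ext; simp,
      PMF.toMeasure_apply_finset]
    change 1 - ∑ j ∈ _, ENNReal.ofReal _ = _
    rw [← ENNReal.ofReal_sum_of_nonneg fun j _ => by positivity, tel (by norm_num),
      ← ENNReal.ofReal_one, ← ENNReal.ofReal_sub _ (by
        rw [sub_nonneg, div_le_one (by positivity)]; simp; positivity)]
    congr 1
    push_cast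
    ring
  rw [h1, PMF.toMeasure_apply_singleton _ _ (measurableSet_singleton _)]
  change ENNReal.ofReal _ * ENNReal.ofReal _ * _ * _ ≤ _
  rw [← ENNReal.ofReal_inv_of_pos (by positivity), ← ENNReal.ofReal_ofNat,
    ← ENNReal.ofReal_inv_of_pos (by positivity)]
  repeat rw [← ENNReal.ofReal_mul (by positivity)]
  refine ENNReal.ofReal_le_ofReal ?_
  field_simp
  nlinarith [(Nat.cast_nonneg i : (0 : ℝ) ≤ i)]

theorem result : letI : MeasurableSpace (ℤ →₀ ℤ) := ⊤
    ∃ μ : PMF (ℤ →₀ ℤ), (∀ g, μ (-g) = μ g) ∧ AddSubgroup.closure μ.support = ⊤ ∧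
      ∃ n : ℕ, 1 ≤ n ∧ ∃ A : Set (ℕ → ℤ →₀ ℤ), MeasurableSet A ∧
        0 < Measure.infinitePi (fun _ => μ.toMeasure) A ∧ ∀ z ∈ A,
          AddSubsemigroup.closure {x | ∃ m, n ≤ m ∧ x = ∑ r ∈ Finset.range m, z r} ≠ ⊤ := by
  let : MeasurableSpace (ℤ →₀ ℤ) := ⊤
  have hC : ∀ i a b, MeasurableSet (C i a b) := fun i a b =>
    .pi (Finset.countable_toSet _) fun _ _ => trivial
  have hN : ∀ r, MeasurableSet ((fun z : ℕ → ℤ →₀ ℤ => z r) ⁻¹' mu.supportᶜ) := fun r =>
    measurable_pi_apply r trivial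
  have hm : MeasurableSet ((⋃ r, (fun z : ℕ → ℤ →₀ ℤ => z r) ⁻¹' mu.supportᶜ) ∪
      ⋃ i, ⋃ a, ⋃ b, C i a b) :=
    (MeasurableSet.iUnion hN).union (.iUnion fun i => .iUnion fun a => .iUnion (hC i a))
  refine ⟨mu, mu_symm, mu_gen, 1, le_rfl, _, hm.compl, ?_, fun z hz h => ?_⟩
  · rw [pos_iff_ne_zero, Ne, prob_compl_eq_zero_iff hm]
    refine ((measure_union_le _ _).trans_lt ?_).ne
    rw [measure_iUnion_null fun r => ?_, zero_add]
    · refine lt_of_le_of_lt (le_trans ?_ bound) (by simp)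
      refine (measure_iUnion_le _).trans (ENNReal.tsum_le_tsum fun i => (measure_iUnion_le _).trans
        (ENNReal.tsum_le_tsum fun a => (measure_iUnion_le _).trans
          (ENNReal.tsum_le_tsum fun b => le_of_eq ?_)))
      rw [C, Measure.infinitePi_pi _ fun _ _ => MeasurableSpace.measurableSet_top, ← prod_if]
      refine Finset.prod_congr rfl fun r _ => ?_
      rw [← PMF.toMeasure_map_apply _ _ _ measurable_from_top .of_discrete, mu_idx]
      split_ifs <;> rfl
    · rw [← Measure.map_apply (measurable_pi_apply r) MeasurableSpace.measurableSet_top,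
        Measure.infinitePi_map_eval,
        PMF.toMeasure_apply_eq_zero_iff _ MeasurableSpace.measurableSet_top]
      exact disjoint_compl_right
  · simp only [mem_compl_iff, mem_union, mem_iUnion, mem_preimage, not_or, not_exists, not_not] at hz
    refine det z hz.1 (fun s t hst he => ?_) (h ▸ AddSubsemigroup.mem_top _)
    by_contra hc
    push Not at hc
    obtain ⟨b, rfl⟩ := Nat.exists_eq_add_of_lt hst
    refine hz.2 (idx (z (s + b + 1))) s b fun r hr => ?_
    have := Finset.mem_range.mp hr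
    beta_reduce
    split_ifs with h1
    · rcases h1 with rfl | rfl
      · exact he
      · rfl
    · exact hc r (by omega)

end Pool.Agent.Results.MP_eb99da_pr.NotAR
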